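import Pool.Agent.W868.FI.Stms2

/-! Amenability of `ℤ ^ n` (Folner boxes). -/

namespace Pool.Agent.W35.FI

open Filter Topology

/-- the box -/
noncomputable def bx (n m : ℕ) : Finset (Fin n → ℤ) := Fintype.piFinset fun _ => Finset.Ico (0 : ℤ) (m : ℤ)

theorem card_bx (n m : ℕ) : (bx n m).card = m ^ n := by
  simp [bx, Fintype.card_piFinset]

theorem key (n : ℕ) (s : Fin n → ℤ) (m : ℕ) (hm : ∀ i, |s i| ≤ m) :
    (((bx n m).filter fun y => s + y ∉ bx n m).card : ℝ) ≤
      (m : ℝ) ^ n - ∏ i, ((m : ℝ) - |(s i : ℝ)|) := by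
  have h1 := Finset.card_filter_add_card_filter_not (s := bx n m) (fun y => s + y ∈ bx n m)
  have h2 : (Fintype.piFinset fun i => Finset.Ico (max 0 (-s i)) (min (m : ℤ) (m - s i))) ⊆
      (bx n m).filter fun y => s + y ∈ bx n m := by
    intro y hy
    rw [Fintype.mem_piFinset] at hy
    rw [Finset.mem_filter]
    unfold bx
    rw [Fintype.mem_piFinset, Fintype.mem_piFinset]
    constructor
    · intro i
      have := hy i
      rw [Finset.mem_Ico] at this ⊢
      constructor
      · exact (le_max_left _ _).trans this.1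
      · exact this.2.trans_le (min_le_left _ _)
    · intro i
      have := hy i
      rw [Finset.mem_Ico] at this ⊢
      have h3 := (le_max_right 0 (-s i)).trans this.1
      have h4 := this.2.trans_le (min_le_right _ _)
      rw [Pi.add_apply]
      constructor <;> linarith
  have h3 := Finset.card_le_card h2
  rw [Fintype.card_piFinset] at h3
  have h4 : ∏ i, ((m : ℝ) - |(s i : ℝ)|) ≤
      ((∏ i, (Finset.Ico (max 0 (-s i)) (min (m : ℤ) (m - s i))).card : ℕ) : ℝ) := by
    rw [Nat.cast_prod]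
    apply Finset.prod_le_prod
    · intro i _
      have := hm i
      have h5 : ((|s i| : ℤ) : ℝ) ≤ ((m : ℤ) : ℝ) := by exact_mod_cast this
      rw [Int.cast_abs] at h5
      push_cast at h5
      linarith
    · intro i _
      rw [Int.card_Ico]
      have h5 : (min (m : ℤ) (m - s i) - max 0 (-s i)) = (m : ℤ) - |s i| := by
        rcases le_total 0 (s i) with h | h
        · rw [abs_of_nonneg h, min_eq_right (by linarith), max_eq_left (by linarith)]
          ring
        · rw [abs_of_nonpos h, min_eq_left (by linarith), max_eq_right (by linarith)]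
      rw [h5]
      have h6 : (((m : ℤ) - |s i| : ℤ) : ℝ) ≤ ((((m : ℤ) - |s i|).toNat : ℤ) : ℝ) := by
        exact_mod_cast Int.self_le_toNat _
      push_cast at h6
      exact h6
  have h5 : (((∏ i, (Finset.Ico (max 0 (-s i)) (min (m : ℤ) (m - s i))).card : ℕ) : ℝ)) ≤
      (((bx n m).filter fun y => s + y ∈ bx n m).card : ℝ) := by
    exact_mod_cast h3
  have h6 : (((bx n m).filter fun y => s + y ∈ bx n m).card : ℝ) +
      (((bx n m).filter fun y => s + y ∉ bx n m).card : ℝ) = (m : ℝ) ^ n := by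
    rw [card_bx] at h1
    exact_mod_cast h1
  linarith

theorem ev (n : ℕ) (s : Fin n → ℤ) (ε : ℝ) (hε : 0 < ε) : ∀ᶠ m : ℕ in atTop,
    (((bx n m).filter fun y => s + y ∉ bx n m).card : ℝ) ≤ ε * (m : ℝ) ^ n := by
  have h1 : Tendsto (fun m : ℕ => ∏ i, (1 - |(s i : ℝ)| / (m : ℝ))) atTop (𝓝 1) := by
    have h0 : Tendsto (fun m : ℕ => ∏ i, (1 - |(s i : ℝ)| / (m : ℝ))) atTop
        (𝓝 (∏ _i : Fin n, (1 - 0 : ℝ))) := by
      refine tendsto_finsetProd _ fun i _ => ?_
      exact (tendsto_const_nhds (x := (1 : ℝ))).sub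
        (tendsto_const_div_atTop_nhds_zero_nat |(s i : ℝ)|)
    simpa using h0
  have h2 := h1.eventually (lt_mem_nhds (show (1 - ε) < 1 by linarith))
  have h3 : ∀ᶠ m : ℕ in atTop, ∀ i, |s i| ≤ (m : ℤ) := by
    filter_upwards [eventually_ge_atTop (∑ i, (s i).natAbs)] with m hm
    intro i
    have h4 : (s i).natAbs ≤ ∑ i, (s i).natAbs :=
      Finset.single_le_sum (f := fun i => (s i).natAbs) (fun _ _ => Nat.zero_le _)
        (Finset.mem_univ i)
    have h5 : (s i).natAbs ≤ m := h4.trans hm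
    rw [Int.abs_eq_natAbs]
    exact_mod_cast h5
  filter_upwards [h2, h3, eventually_gt_atTop 0] with m hm2 hm3 hm0
  refine (key n s m hm3).trans ?_
  have hm : (0 : ℝ) < m := by exact_mod_cast hm0
  have h4 : ∏ i, ((m : ℝ) - |(s i : ℝ)|) = (m : ℝ) ^ n * ∏ i, (1 - |(s i : ℝ)| / (m : ℝ)) := by
    have : (m : ℝ) ^ n = ∏ _i : Fin n, (m : ℝ) := by simp
    rw [this, ← Finset.prod_mul_distrib]
    apply Finset.prod_congr rfl
    intro i _
    field_simp
  rw [h4]
  have h5 : (0 : ℝ) < (m : ℝ) ^ n := by positivity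
  nlinarith

theorem amen_zn (n : ℕ) : Pool.Agent.W868.FI.Amen (Multiplicative (Fin n → ℤ)) := by
  intro S ε hε
  have h1 : ∀ᶠ m : ℕ in atTop, ∀ s ∈ S,
      (((bx n m).filter fun y => Multiplicative.toAdd s + y ∉ bx n m).card : ℝ) ≤
        ε * (m : ℝ) ^ n := by
    rw [Filter.eventually_all_finset]
    intro s _
    exact ev n _ ε hε
  obtain ⟨m, hm, hm0⟩ := (h1.and (eventually_gt_atTop 0)).exists
  refine ⟨(bx n m).map Multiplicative.ofAdd.toEmbedding, ?_, ?_⟩
  · rw [Finset.map_nonempty, ← Finset.card_pos, card_bx]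
    positivity
  · intro s hs
    rw [Finset.card_map, card_bx]
    rw [Nat.cast_pow]
    refine le_trans ?_ (hm s hs)
    have h2 : ((fun g => s * g) '' (((bx n m).map Multiplicative.ofAdd.toEmbedding :
        Finset (Multiplicative (Fin n → ℤ))) : Set (Multiplicative (Fin n → ℤ)))) \
        (((bx n m).map Multiplicative.ofAdd.toEmbedding :
        Finset (Multiplicative (Fin n → ℤ))) : Set (Multiplicative (Fin n → ℤ))) ⊆
        (fun y => s * Multiplicative.ofAdd y) '' (((bx n m).filter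
          fun y => Multiplicative.toAdd s + y ∉ bx n m : Finset (Fin n → ℤ)) :
          Set (Fin n → ℤ)) := by
      rintro x ⟨⟨g, hg, rfl⟩, hx⟩
      rw [Finset.mem_coe, Finset.mem_map] at hg
      obtain ⟨y, hy, rfl⟩ := hg
      refine ⟨y, ?_, rfl⟩
      rw [Finset.mem_coe, Finset.mem_filter]
      refine ⟨hy, fun h => hx ?_⟩
      rw [Finset.mem_coe, Finset.mem_map]
      exact ⟨_, h, rfl⟩
    have h3 := Set.ncard_le_ncard h2 ((Finset.finite_toSet _).image _)
    have h4 := Set.ncard_image_le (f := fun y => s * Multiplicative.ofAdd y)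
      (Finset.finite_toSet ((bx n m).filter fun y => Multiplicative.toAdd s + y ∉ bx n m))
    rw [Set.ncard_coe_finset] at h4
    exact Nat.cast_le.mpr (h3.trans h4)

end Pool.Agent.W35.FI
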